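import Mathlib
import Pool.Agent.N733.TG.H

set_option autoImplicit false

/-! Pairs of values of multiplicative functions in boxes with different sides avoid sets with a power saving.
The case of one function is the theorem `avoid1` of helper733. -/

namespace Pool.Agent.N680.TA

open Finset Classical Pool.Agent.N733.TG

lemma prod_card (s t : Finset ℕ) (P : ℕ × ℕ → Prop) :
    ((s ×ˢ t).filter P).card = ∑ x ∈ s, (t.filter (fun y => P (x, y))).card := by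
  rw [card_filter, sum_product]
  simp_rw [← card_filter]

theorem two_boxes {f g : ℕ → ℕ} (hf : LM f) (hg : LM g) {p q : ℕ} (hp : 1 ≤ p) (hq : 1 ≤ q) {c ρ : ℝ} (hc : 0 < c)
    (hc1 : c ≤ 1) (hρ : 0 < ρ) (C₀ : ℝ) (A : ℕ) :
    ∃ N₀ : ℕ, ∀ N : ℕ, N₀ ≤ N → ∀ W : Set (ℕ × ℕ),
      (((Icc 1 ⌊((N ^ p : ℕ) : ℝ) ^ (1 + ρ)⌋₊ ×ˢ Icc 1 ⌊((N ^ q : ℕ) : ℝ) ^ (1 + ρ)⌋₊).filter
        (fun v => v ∈ W)).card : ℝ) ≤ C₀ * (N : ℝ) ^ ((p : ℝ) + q - c) →
      (((Icc 1 (N ^ p) ×ˢ Icc 1 (N ^ q)).filter (fun m => (f m.1, g m.2) ∈ W)).card : ℝ) ≤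
        (N : ℝ) ^ (p + q) / Real.log N ^ A := by
  have hp' : (1 : ℝ) ≤ p := by exact_mod_cast hp
  have hq' : (1 : ℝ) ≤ q := by exact_mod_cast hq
  obtain ⟨θ₁, hθ₁⟩ : ∃ θ : ℝ, θ = 1 - c / (2 * p) := ⟨_, rfl⟩
  obtain ⟨θ₂, hθ₂⟩ : ∃ θ : ℝ, θ = 1 - c / (2 * q) := ⟨_, rfl⟩
  have k1 : c / (2 * p) ≤ 1 := by
    rw [div_le_one (by positivity)]
    linarith
  have k2 : c / (2 * q) ≤ 1 := by
    rw [div_le_one (by positivity)]
    linarith
  have k3 : 0 < c / (2 * p) := by positivity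
  have k4 : 0 < c / (2 * q) := by positivity
  obtain ⟨N₁, hN₁⟩ := avoid1 hf (θ := θ₁) (ρ := ρ) (by linarith) (by linarith) hρ C₀ (A + 1)
  obtain ⟨N₂, hN₂⟩ := avoid1 hg (θ := θ₂) (ρ := ρ) (by linarith) (by linarith) hρ 1 (A + 1)
  have hlog := (Real.tendsto_log_atTop.comp (tendsto_natCast_atTop_atTop (R := ℝ))).eventually_ge_atTop 2
  obtain ⟨N₃, hN₃⟩ := Filter.eventually_atTop.1 hlog
  refine ⟨max (max N₁ N₂) (max N₃ 3), fun N hN W hW => ?_⟩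
  have b1 : N₁ ≤ N := (le_max_left _ _).trans ((le_max_left _ _).trans hN)
  have b2 : N₂ ≤ N := (le_max_right _ _).trans ((le_max_left _ _).trans hN)
  have b3 : N₃ ≤ N := (le_max_left _ _).trans ((le_max_right _ _).trans hN)
  have b4 : 3 ≤ N := (le_max_right _ _).trans ((le_max_right _ _).trans hN)
  have hL2 := hN₃ N b3
  simp only [Function.comp] at hL2
  have hN1 : (1 : ℝ) ≤ N := by exact_mod_cast (by omega : 1 ≤ N)
  have hN0 : (0 : ℝ) < N := by linarith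
  have c1 : N ≤ N ^ p := Nat.le_self_pow (by omega) N
  have c2 : N ≤ N ^ q := Nat.le_self_pow (by omega) N
  have e1 : ((N ^ p : ℕ) : ℝ) ^ θ₁ = (N : ℝ) ^ ((p : ℝ) - c / 2) := by
    rw [Nat.cast_pow, ← Real.rpow_natCast, ← Real.rpow_mul hN0.le]
    congr 1
    rw [hθ₁]
    field_simp
  have e2 : ((N ^ q : ℕ) : ℝ) ^ θ₂ = (N : ℝ) ^ ((q : ℝ) - c / 2) := by
    rw [Nat.cast_pow, ← Real.rpow_natCast, ← Real.rpow_mul hN0.le]
    congr 1
    rw [hθ₂]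
    field_simp
  obtain ⟨X, hX⟩ : ∃ X : ℕ, X = ⌊((N ^ p : ℕ) : ℝ) ^ (1 + ρ)⌋₊ := ⟨_, rfl⟩
  obtain ⟨Y, hY⟩ : ∃ Y : ℕ, Y = ⌊((N ^ q : ℕ) : ℝ) ^ (1 + ρ)⌋₊ := ⟨_, rfl⟩
  rw [← hX, ← hY] at hW
  obtain ⟨B, hB⟩ : ∃ B : Set ℕ, B = {u | X < u ∨
    (N : ℝ) ^ ((q : ℝ) - c / 2) < (((Icc 1 Y).filter (fun v => (u, v) ∈ W)).card : ℝ)} := ⟨_, rfl⟩
  have hpos : (0 : ℝ) < (N : ℝ) ^ ((q : ℝ) - c / 2) := Real.rpow_pos_of_pos hN0 _
  have hBc : (((Icc 1 X).filter (fun u => u ∈ B)).card : ℝ) ≤ C₀ * ((N ^ p : ℕ) : ℝ) ^ θ₁ := by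
    rw [e1]
    have h1 : (((Icc 1 X).filter (fun u => u ∈ B)).card : ℝ) * (N : ℝ) ^ ((q : ℝ) - c / 2) ≤
        C₀ * (N : ℝ) ^ ((p : ℝ) + q - c) := by
      refine le_trans ?_ hW
      rw [prod_card]
      push_cast
      rw [← nsmul_eq_mul, ← sum_const]
      refine le_trans (sum_le_sum (g := fun u => (((Icc 1 Y).filter (fun v => (u, v) ∈ W)).card : ℝ)) ?_) ?_
      · intro u hu
        rw [mem_filter, mem_Icc, hB] at hu
        rcases hu.2 with h | h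
        · omega
        · exact h.le
      · apply sum_le_sum_of_subset_of_nonneg (filter_subset _ _)
        intro u _ _
        positivity
    have h2 : C₀ * (N : ℝ) ^ ((p : ℝ) + q - c) = C₀ * (N : ℝ) ^ ((p : ℝ) - c / 2) * (N : ℝ) ^ ((q : ℝ) - c / 2) := by
      rw [mul_assoc, ← Real.rpow_add hN0]
      congr 2
      ring
    rw [h2] at h1
    exact le_of_mul_le_mul_right h1 hpos
  have s1 := hN₁ (N ^ p) (b1.trans c1) B (by rw [← hX]; exact hBc)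
  have s2 : ∀ u : ℕ, u ∉ B → (((Icc 1 (N ^ q)).filter (fun m => (u, g m) ∈ W)).card : ℝ) ≤
      ((N ^ q : ℕ) : ℝ) / Real.log ((N ^ q : ℕ) : ℝ) ^ (A + 1) := by
    intro u hu
    refine hN₂ (N ^ q) (b2.trans c2) {v | (u, v) ∈ W} ?_
    rw [← hY, e2, one_mul]
    rw [hB] at hu
    simp only [Set.mem_ofPred_eq, not_or, not_lt] at hu
    exact hu.2
  have l1 : Real.log ((N ^ p : ℕ) : ℝ) = p * Real.log N := by
    rw [Nat.cast_pow, Real.log_pow]
  have l2 : Real.log ((N ^ q : ℕ) : ℝ) = q * Real.log N := by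
    rw [Nat.cast_pow, Real.log_pow]
  have hL0 : 0 < Real.log N := by linarith
  have hLA : 0 < Real.log N ^ A := by positivity
  have m1 : ∀ r : ℝ, 1 ≤ r → 2 * Real.log N ^ A ≤ (r * Real.log N) ^ (A + 1) := by
    intro r hr
    have h1 : Real.log N ≤ r * Real.log N := by nlinarith
    calc 2 * Real.log N ^ A ≤ Real.log N * Real.log N ^ A := by gcongr
      _ = Real.log N ^ (A + 1) := by ring
      _ ≤ _ := pow_le_pow_left₀ hL0.le h1 _
  -- the final count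
  have hcount : ((Icc 1 (N ^ p) ×ˢ Icc 1 (N ^ q)).filter (fun m => (f m.1, g m.2) ∈ W)).card =
      ∑ m ∈ Icc 1 (N ^ p), ((Icc 1 (N ^ q)).filter (fun n => (f m, g n) ∈ W)).card :=
    prod_card _ _ _
  rw [hcount, ← sum_filter_add_sum_filter_not _ (fun m => f m ∈ B)]
  push_cast
  have t1 : (∑ m ∈ (Icc 1 (N ^ p)).filter (fun m => f m ∈ B),
      (((Icc 1 (N ^ q)).filter (fun n => (f m, g n) ∈ W)).card : ℝ)) ≤ (N : ℝ) ^ (p + q) / (2 * Real.log N ^ A) := by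
    calc _ ≤ ∑ m ∈ (Icc 1 (N ^ p)).filter (fun m => f m ∈ B), (((N ^ q : ℕ) : ℕ) : ℝ) := by
          apply sum_le_sum
          intro m _
          have := card_filter_le (Icc 1 (N ^ q)) (fun n => (f m, g n) ∈ W)
          rw [Nat.card_Icc, Nat.add_sub_cancel] at this
          exact_mod_cast this
      _ = (((Icc 1 (N ^ p)).filter (fun m => f m ∈ B)).card : ℝ) * ((N ^ q : ℕ) : ℝ) := by
          rw [sum_const, nsmul_eq_mul]
      _ ≤ (((N ^ p : ℕ) : ℝ) / Real.log ((N ^ p : ℕ) : ℝ) ^ (A + 1)) * ((N ^ q : ℕ) : ℝ) := by gcongr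
      _ ≤ (((N ^ p : ℕ) : ℝ) / (2 * Real.log N ^ A)) * ((N ^ q : ℕ) : ℝ) := by
          rw [l1]
          gcongr
          exact m1 p hp'
      _ = _ := by
          push_cast
          rw [pow_add]
          ring
  have t2 : (∑ m ∈ (Icc 1 (N ^ p)).filter (fun m => ¬ f m ∈ B),
      (((Icc 1 (N ^ q)).filter (fun n => (f m, g n) ∈ W)).card : ℝ)) ≤ (N : ℝ) ^ (p + q) / (2 * Real.log N ^ A) := by
    calc _ ≤ ∑ m ∈ (Icc 1 (N ^ p)).filter (fun m => ¬ f m ∈ B),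
          ((N ^ q : ℕ) : ℝ) / Real.log ((N ^ q : ℕ) : ℝ) ^ (A + 1) := by
          apply sum_le_sum
          intro m hm
          rw [mem_filter] at hm
          exact s2 _ hm.2
      _ = (((Icc 1 (N ^ p)).filter (fun m => ¬ f m ∈ B)).card : ℝ) *
          (((N ^ q : ℕ) : ℝ) / Real.log ((N ^ q : ℕ) : ℝ) ^ (A + 1)) := by
          rw [sum_const, nsmul_eq_mul]
      _ ≤ ((N ^ p : ℕ) : ℝ) * (((N ^ q : ℕ) : ℝ) / (2 * Real.log N ^ A)) := by
          have := card_filter_le (Icc 1 (N ^ p)) (fun m => ¬ f m ∈ B)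
          rw [Nat.card_Icc, Nat.add_sub_cancel] at this
          have h5 : (((Icc 1 (N ^ p)).filter (fun m => ¬ f m ∈ B)).card : ℝ) ≤ ((N ^ p : ℕ) : ℝ) := by
            exact_mod_cast this
          rw [l2]
          gcongr
          exact m1 q hq'
      _ = _ := by
          push_cast
          rw [pow_add]
          ring
  calc _ ≤ (N : ℝ) ^ (p + q) / (2 * Real.log N ^ A) + (N : ℝ) ^ (p + q) / (2 * Real.log N ^ A) := add_le_add t1 t2
    _ = _ := by field_simp; ring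

end Pool.Agent.N680.TA
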