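import Mathlib
import Pool.Agent.N680.TA.Two

set_option autoImplicit false

/-! Pairs of integers near multiples of values of multiplicative functions avoid sets with a power saving. -/

namespace Pool.Agent.N680.TA

open Finset Classical Pool.Agent.N733.TG

lemma near_card {α κ : ℝ} (hα : α ≠ 0) (hκ : 0 ≤ κ) (A : ℝ) {X : ℕ} (hX : 1 ≤ X) :
    (((Icc 1 X).filter (fun u : ℕ => |A - α * u| ≤ (u : ℝ) ^ κ)).card : ℝ) ≤ (2 / |α| + 1) * (X : ℝ) ^ κ := by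
  have hα' : 0 < |α| := abs_pos.2 hα
  have hX1 : (1 : ℝ) ≤ X := by exact_mod_cast hX
  have h1 : 1 ≤ (X : ℝ) ^ κ := Real.one_le_rpow hX1 hκ
  obtain ⟨S, hS⟩ : ∃ S : Finset ℕ, S = (Icc 1 X).filter (fun u : ℕ => |A - α * u| ≤ (u : ℝ) ^ κ) := ⟨_, rfl⟩
  rw [← hS]
  rcases S.eq_empty_or_nonempty with h | h
  · rw [h, card_empty, Nat.cast_zero]
    positivity
  · have hmem : ∀ u ∈ S, |A - α * u| ≤ (X : ℝ) ^ κ := by
      intro u hu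
      rw [hS, mem_filter, mem_Icc] at hu
      refine hu.2.trans (Real.rpow_le_rpow (Nat.cast_nonneg _) ?_ hκ)
      exact_mod_cast hu.1.2
    have h2 : S ⊆ Icc (S.min' h) (S.min' h + ⌊2 * (X : ℝ) ^ κ / |α|⌋₊) := by
      intro u hu
      rw [mem_Icc]
      refine ⟨S.min'_le u hu, ?_⟩
      have a1 := hmem u hu
      have a2 := hmem _ (S.min'_mem h)
      have a3 : (S.min' h : ℝ) ≤ u := by exact_mod_cast S.min'_le u hu
      have a4 : |α| * ((u : ℝ) - S.min' h) ≤ 2 * (X : ℝ) ^ κ := by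
        have : |α| * ((u : ℝ) - S.min' h) = |α * ((u : ℝ) - S.min' h)| := by
          rw [abs_mul, abs_of_nonneg (sub_nonneg.2 a3)]
        rw [this]
        have e : α * ((u : ℝ) - S.min' h) = (A - α * (S.min' h : ℕ)) - (A - α * u) := by ring
        rw [e]
        exact (abs_sub _ _).trans (by linarith)
      have a5 : (u : ℝ) - S.min' h ≤ 2 * (X : ℝ) ^ κ / |α| := by
        rw [le_div_iff₀ hα']
        linarith
      have a6 : u - S.min' h ≤ ⌊2 * (X : ℝ) ^ κ / |α|⌋₊ := by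
        apply Nat.le_floor
        rw [Nat.cast_sub (S.min'_le u hu)]
        exact a5
      omega
    have h3 := card_le_card h2
    rw [Nat.card_Icc] at h3
    have h4 : S.card ≤ ⌊2 * (X : ℝ) ^ κ / |α|⌋₊ + 1 := by omega
    have h5 : (⌊2 * (X : ℝ) ^ κ / |α|⌋₊ : ℝ) ≤ 2 * (X : ℝ) ^ κ / |α| := Nat.floor_le (by positivity)
    calc (S.card : ℝ) ≤ ⌊2 * (X : ℝ) ^ κ / |α|⌋₊ + 1 := by exact_mod_cast h4
      _ ≤ 2 * (X : ℝ) ^ κ / |α| + (X : ℝ) ^ κ := add_le_add h5 h1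
      _ = _ := by ring

/-- If `E R` has at most `M R^s` elements in the box `|A| ≤ R^p`, `|B| ≤ R^q` and `s + (p + q) κ < p + q`, then for all but
`N^(p + q) / (log N)^U` of the pairs `(m, n)`, `m ≤ N^p`, `n ≤ N^q`, no pair `(A, B)` in `E N` is near `(α f(m), β g(n))`;
`E` is decreasing in `R`. -/
theorem near_boxes {f g : ℕ → ℕ} (hf : LM f) (hg : LM g) {p q : ℕ} (hp : 1 ≤ p) (hq : 1 ≤ q) {s κ M : ℝ}
    (hs : 0 ≤ s) (hκ : 0 ≤ κ) (hsk : s + (p + q) * κ < p + q) (hM : 0 ≤ M) (E : ℝ → Set (ℤ × ℤ))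
    (hmono : ∀ R R' : ℝ, R ≤ R' → E R ⊆ E R')
    (hE : ∀ R : ℝ, 1 ≤ R → {P : ℤ × ℤ | |(P.1 : ℝ)| ≤ R ^ p ∧ |(P.2 : ℝ)| ≤ R ^ q ∧ P ∈ E R}.Finite ∧
      ({P : ℤ × ℤ | |(P.1 : ℝ)| ≤ R ^ p ∧ |(P.2 : ℝ)| ≤ R ^ q ∧ P ∈ E R}.ncard : ℝ) ≤ M * R ^ s)
    {α β : ℝ} (hα : α ≠ 0) (hβ : β ≠ 0) (U : ℕ) :
    ∃ N₀ : ℕ, ∀ N : ℕ, N₀ ≤ N →
      ({m : ℕ × ℕ | (1 ≤ m.1 ∧ m.1 ≤ N ^ p) ∧ (1 ≤ m.2 ∧ m.2 ≤ N ^ q) ∧ ∃ A B : ℤ,
        |A - α * f m.1| ≤ (f m.1 : ℝ) ^ κ ∧ |B - β * g m.2| ≤ (g m.2 : ℝ) ^ κ ∧ (A, B) ∈ E N}.ncard : ℝ) ≤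
        (N : ℝ) ^ (p + q) / Real.log N ^ U := by
  have hp' : (1 : ℝ) ≤ p := by exact_mod_cast hp
  have hq' : (1 : ℝ) ≤ q := by exact_mod_cast hq
  have hκ1 : κ ≤ 1 := by
    by_contra hc
    push Not at hc
    nlinarith
  -- parameters
  obtain ⟨t, ht⟩ : ∃ t : ℝ, t = s + (p + q) * κ := ⟨_, rfl⟩
  rw [← ht] at hsk
  have ht0 : 0 ≤ t := by rw [ht]; positivity
  obtain ⟨ρ, hρ⟩ : ∃ ρ : ℝ, ρ = (p + q - t) / (2 * (t + 1)) := ⟨_, rfl⟩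
  have hρ0 : 0 < ρ := by
    rw [hρ]
    apply div_pos
    · linarith
    · linarith
  obtain ⟨c, hc⟩ : ∃ c : ℝ, c = min ((p + q - t) / 2) 1 := ⟨_, rfl⟩
  have hc0 : 0 < c := by
    rw [hc]
    apply lt_min _ one_pos
    linarith
  have hc1 : c ≤ 1 := by rw [hc]; exact min_le_right _ _
  have hkey : (1 + ρ) * t ≤ p + q - c := by
    have h1 : c ≤ (p + q - t) / 2 := by rw [hc]; exact min_le_left _ _
    have h2 : ρ * t ≤ (p + q - t) / 2 := by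
      have h3 : ρ * (t + 1) = (p + q - t) / 2 := by
        rw [hρ]
        field_simp
      nlinarith
    nlinarith
  obtain ⟨K, hK⟩ : ∃ K : ℝ, K = |α| + |β| + 1 := ⟨_, rfl⟩
  have hK1 : 1 ≤ K := by
    rw [hK]
    have := abs_nonneg α
    have := abs_nonneg β
    linarith
  have hKα : |α| + 1 ≤ K := by
    rw [hK]
    have := abs_nonneg β
    linarith
  have hKβ : |β| + 1 ≤ K := by
    rw [hK]
    have := abs_nonneg α
    linarith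
  obtain ⟨N₀, hN₀⟩ := two_boxes hf hg hp hq hc0 hc1 hρ0
    (M * K ^ s * ((2 / |α| + 1) * (2 / |β| + 1))) U
  refine ⟨max N₀ 1, fun N hN => ?_⟩
  have hN1 : (1 : ℝ) ≤ N := by exact_mod_cast (le_max_right N₀ 1).trans hN
  have hN0 : (0 : ℝ) < N := by linarith
  obtain ⟨Q, hQ⟩ : ∃ Q : ℝ, Q = (N : ℝ) ^ (1 + ρ) := ⟨_, rfl⟩
  have hQ1 : 1 ≤ Q := by
    rw [hQ]
    exact Real.one_le_rpow hN1 (by linarith)
  have hNQ : (N : ℝ) ≤ Q := by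
    rw [hQ]
    calc (N : ℝ) = (N : ℝ) ^ (1 : ℝ) := (Real.rpow_one _).symm
      _ ≤ _ := Real.rpow_le_rpow_of_exponent_le hN1 (by linarith)
  have eQ : ∀ r : ℕ, ((N ^ r : ℕ) : ℝ) ^ (1 + ρ) = Q ^ r := by
    intro r
    rw [hQ, Nat.cast_pow, ← Real.rpow_natCast, ← Real.rpow_natCast, ← Real.rpow_mul hN0.le, ← Real.rpow_mul hN0.le]
    congr 1
    ring
  obtain ⟨X, hX⟩ : ∃ X : ℕ, X = ⌊((N ^ p : ℕ) : ℝ) ^ (1 + ρ)⌋₊ := ⟨_, rfl⟩
  obtain ⟨Y, hY⟩ : ∃ Y : ℕ, Y = ⌊((N ^ q : ℕ) : ℝ) ^ (1 + ρ)⌋₊ := ⟨_, rfl⟩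
  have hXQ : (X : ℝ) ≤ Q ^ p := by
    rw [hX, eQ]
    exact Nat.floor_le (by positivity)
  have hYQ : (Y : ℝ) ≤ Q ^ q := by
    rw [hY, eQ]
    exact Nat.floor_le (by positivity)
  have hX1 : 1 ≤ X := by
    rw [hX, eQ]
    apply Nat.le_floor
    rw [Nat.cast_one]
    exact one_le_pow₀ hQ1
  have hY1 : 1 ≤ Y := by
    rw [hY, eQ]
    apply Nat.le_floor
    rw [Nat.cast_one]
    exact one_le_pow₀ hQ1
  obtain ⟨W, hW⟩ : ∃ W : Set (ℕ × ℕ), W = {v | ∃ A B : ℤ, |A - α * v.1| ≤ (v.1 : ℝ) ^ κ ∧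
      |B - β * v.2| ≤ (v.2 : ℝ) ^ κ ∧ (A, B) ∈ E N} := ⟨_, rfl⟩
  obtain ⟨hfin, hcount⟩ := hE (K * Q) (one_le_mul_of_one_le_of_one_le hK1 hQ1)
  have hbd : ∀ (γ : ℝ) (r : ℕ) (Z u : ℕ) (A : ℤ), |γ| + 1 ≤ K → (Z : ℝ) ≤ Q ^ r → 1 ≤ r → 1 ≤ u → u ≤ Z →
      |A - γ * u| ≤ (u : ℝ) ^ κ → |(A : ℝ)| ≤ (K * Q) ^ r := by
    intro γ r Z u A hγ hZ hr hu huZ hA
    have u1 : (1 : ℝ) ≤ u := by exact_mod_cast hu
    have u2 : (u : ℝ) ≤ Z := by exact_mod_cast huZ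
    have u3 : (u : ℝ) ^ κ ≤ u := by
      calc (u : ℝ) ^ κ ≤ (u : ℝ) ^ (1 : ℝ) := Real.rpow_le_rpow_of_exponent_le u1 hκ1
        _ = u := Real.rpow_one _
    have u4 : |(A : ℝ)| ≤ |A - γ * u| + |γ * u| := by
      have e : (A : ℝ) = (A - γ * u) + γ * u := by ring
      calc |(A : ℝ)| = |(A - γ * u) + γ * u| := by rw [← e]
        _ ≤ _ := abs_add_le _ _
    have u5 : |γ * u| = |γ| * u := by rw [abs_mul, Nat.abs_cast]
    calc |(A : ℝ)| ≤ (|γ| + 1) * u := by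
          rw [u5] at u4
          linarith
      _ ≤ K * Q ^ r := mul_le_mul hγ (u2.trans hZ) (by positivity) (by linarith)
      _ ≤ K ^ r * Q ^ r := by
          gcongr
          exact le_self_pow₀ hK1 (by omega)
      _ = _ := by rw [mul_pow]
  have hWc : (((Icc 1 X ×ˢ Icc 1 Y).filter (fun v => v ∈ W)).card : ℝ) ≤
      (M * K ^ s * ((2 / |α| + 1) * (2 / |β| + 1))) * (N : ℝ) ^ ((p : ℝ) + q - c) := by
    have h1 : (Icc 1 X ×ˢ Icc 1 Y).filter (fun v => v ∈ W) ⊆ hfin.toFinset.biUnion (fun P =>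
        ((Icc 1 X).filter (fun u : ℕ => |(P.1 : ℝ) - α * u| ≤ (u : ℝ) ^ κ)) ×ˢ
        ((Icc 1 Y).filter (fun u : ℕ => |(P.2 : ℝ) - β * u| ≤ (u : ℝ) ^ κ))) := by
      intro v hv
      rw [mem_filter, mem_product, mem_Icc, mem_Icc, hW] at hv
      obtain ⟨⟨⟨v1, v2⟩, v3, v4⟩, A, B, v5, v6, v7⟩ := hv
      rw [mem_biUnion]
      refine ⟨(A, B), ?_, ?_⟩
      · rw [Set.Finite.mem_toFinset]
        refine ⟨hbd α p X v.1 A hKα hXQ hp v1 v2 v5, hbd β q Y v.2 B hKβ hYQ hq v3 v4 v6, ?_⟩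
        refine hmono _ _ ?_ v7
        nlinarith
      · rw [mem_product, mem_filter, mem_filter, mem_Icc, mem_Icc]
        exact ⟨⟨⟨v1, v2⟩, v5⟩, ⟨v3, v4⟩, v6⟩
    have h2 : (((Icc 1 X ×ˢ Icc 1 Y).filter (fun v => v ∈ W)).card : ℝ) ≤
        ∑ P ∈ hfin.toFinset, ((2 / |α| + 1) * (X : ℝ) ^ κ) * ((2 / |β| + 1) * (Y : ℝ) ^ κ) := by
      have h3 := (card_le_card h1).trans card_biUnion_le
      have h4 : (((Icc 1 X ×ˢ Icc 1 Y).filter (fun v => v ∈ W)).card : ℝ) ≤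
          ∑ P ∈ hfin.toFinset, ((((Icc 1 X).filter (fun u : ℕ => |(P.1 : ℝ) - α * u| ≤ (u : ℝ) ^ κ)) ×ˢ
            ((Icc 1 Y).filter (fun u : ℕ => |(P.2 : ℝ) - β * u| ≤ (u : ℝ) ^ κ))).card : ℝ) := by
        exact_mod_cast h3
      refine h4.trans (sum_le_sum fun P _ => ?_)
      rw [card_product, Nat.cast_mul]
      exact mul_le_mul (near_card hα hκ _ hX1) (near_card hβ hκ _ hY1) (Nat.cast_nonneg _) (by positivity)
    rw [sum_const, nsmul_eq_mul] at h2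
    have h5 : (hfin.toFinset.card : ℝ) ≤ M * (K * Q) ^ s := by
      rw [← Set.ncard_eq_toFinset_card _ hfin]
      exact hcount
    have h6 : (X : ℝ) ^ κ ≤ Q ^ (p * κ) := by
      calc (X : ℝ) ^ κ ≤ (Q ^ p) ^ κ := Real.rpow_le_rpow (Nat.cast_nonneg _) hXQ hκ
        _ = _ := by rw [← Real.rpow_natCast, ← Real.rpow_mul (by linarith)]
    have h7 : (Y : ℝ) ^ κ ≤ Q ^ (q * κ) := by
      calc (Y : ℝ) ^ κ ≤ (Q ^ q) ^ κ := Real.rpow_le_rpow (Nat.cast_nonneg _) hYQ hκ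
        _ = _ := by rw [← Real.rpow_natCast, ← Real.rpow_mul (by linarith)]
    have hQ0 : 0 < Q := by linarith
    have hK0 : 0 ≤ K := by linarith
    calc (((Icc 1 X ×ˢ Icc 1 Y).filter (fun v => v ∈ W)).card : ℝ)
        ≤ hfin.toFinset.card * (((2 / |α| + 1) * (X : ℝ) ^ κ) * ((2 / |β| + 1) * (Y : ℝ) ^ κ)) := h2
      _ ≤ (M * (K * Q) ^ s) * (((2 / |α| + 1) * Q ^ (p * κ)) * ((2 / |β| + 1) * Q ^ (q * κ))) := by
          gcongr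
      _ = (M * K ^ s * ((2 / |α| + 1) * (2 / |β| + 1))) * (Q ^ s * Q ^ (p * κ) * Q ^ (q * κ)) := by
          rw [Real.mul_rpow hK0 hQ0.le]
          ring
      _ = (M * K ^ s * ((2 / |α| + 1) * (2 / |β| + 1))) * Q ^ t := by
          rw [← Real.rpow_add hQ0, ← Real.rpow_add hQ0, ht]
          congr 2
          ring
      _ ≤ _ := by
          have h8 : Q ^ t ≤ (N : ℝ) ^ ((p : ℝ) + q - c) := by
            rw [hQ, ← Real.rpow_mul hN0.le]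
            exact Real.rpow_le_rpow_of_exponent_le hN1 hkey
          have h9 : 0 ≤ M * K ^ s * ((2 / |α| + 1) * (2 / |β| + 1)) := by positivity
          exact mul_le_mul_of_nonneg_left h8 h9
  rw [hX, hY] at hWc
  have hfinal := hN₀ N ((le_max_left _ _).trans hN) W hWc
  refine le_trans (le_of_eq ?_) hfinal
  congr 1
  rw [← Set.ncard_coe_finset]
  congr 1
  ext m
  simp only [coe_filter, mem_product, mem_Icc, Set.mem_ofPred_eq, hW]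
  tauto

end Pool.Agent.N680.TA
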